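import Mathlib

set_option autoImplicit false

/-!
# Locally characterized affine-invariant properties without short single orbit characterizations

`F` is a finite field, `K` a finite extension of `F`, and properties are sets of functions `K → F`.
For every finite field `F` and every `m ≥ 1` we construct, for every extension `K` of `F` whose
degree has at least `2 m` different prime factors, an affine-invariant property `P` which has a
`6`-local characterization, but every single orbit characterization of `P` has locality at least `m`.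

Construction. The Galois group of `K` over `F` is cyclic of order `t`. For a prime `p` dividing `t`
there is an element `θ` of the subfield of degree `p` such that the elements of the Galois group which
fix `θ` are exactly those of index divisible by `p`. Take `2 m` such primes, `β 0, …, β (m-1)` and
`γ 0, …, γ (m-1)` the elements `θ`; the property is defined by the `m` constraints
`f (a (1 + β γ) + b) - f (a + b) - f (a β γ + b) - f (a (β + γ) + b) + f (a β + b) + f (a γ + b) = 0`.
For an automorphism `g` the functions `Tr (a x g x)` belong to the property if and only if for every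
`i` the automorphism `g` fixes `β i` or `γ i`. A linear constraint `w` on the points `α s` which is
satisfied by the property defines a tensor `∑ w s (α s ⊗ α s)` of rank at most the number of points;
it can violate only few of the `m` functions `Tr (a x g x)` with `g` fixing all elements `β`, `γ`
except for one pair, because of a diagonal minor.
-/

namespace Pool.Agent.Results.MP_cb1103_lc.SingleOrbitUnbounded

/-- The linear space `P` of functions `K → F` is affine-invariant: with `f` it contains all functions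
`x ↦ f (a x + b)`, `a ≠ 0`. -/
def AffineInvariant {F K : Type} [Field F] [Field K] (P : Submodule F (K → F)) : Prop :=
  ∀ f ∈ P, ∀ a b : K, a ≠ 0 → (fun x => f (a * x + b)) ∈ P

/-- `P` has a `k`-local characterization: there is a set of `k`-local constraints `(α, S)`, `α` a
`k`-tuple of points and `S` a proper subset of `F ^ k`, such that `P` consists of the functions `f`
with `(f (α 1), …, f (α k)) ∈ S` for all these constraints. -/
def HasLocalChar {F K : Type} [Field F] [Field K] (k : ℕ) (P : Submodule F (K → F)) : Prop :=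
  ∃ C : Set ((Fin k → K) × Set (Fin k → F)), (∀ c ∈ C, c.2 ≠ Set.univ) ∧
    ∀ f : K → F, f ∈ P ↔ ∀ c ∈ C, (fun i => f (c.1 i)) ∈ c.2

/-- `P` has a `k`-single orbit characterization: there is one `k`-local constraint `(α, S)` such
that `P` consists of the functions which satisfy all the constraints `(a α + b, S)`, `a ≠ 0`. -/
def HasOrbitChar {F K : Type} [Field F] [Field K] (k : ℕ) (P : Submodule F (K → F)) : Prop :=
  ∃ (α : Fin k → K) (S : Set (Fin k → F)), S ≠ Set.univ ∧
    ∀ f : K → F, f ∈ P ↔ ∀ a b : K, a ≠ 0 → (fun i => f (a * α i + b)) ∈ S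

section core

variable {F K : Type} [Field F] [Field K]

/-- the six points -/
def pts (β γ : K) : Fin 6 → K := ![1 + β * γ, 1, β * γ, β + γ, β, γ]

/-- the six weights -/
def wts : Fin 6 → F := ![1, -1, -1, -1, 1, 1]

/-- the property -/
def PP (F : Type) [Field F] {m : ℕ} (β γ : Fin m → K) : Submodule F (K → F) where
  carrier := {f | ∀ (i : Fin m) (a b : K), ∑ s, wts s * f (a * pts (β i) (γ i) s + b) = 0}
  add_mem' := fun {f g} hf hg i a b => by
    simp only [Pi.add_apply, mul_add, Finset.sum_add_distrib]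
    have h1 := hf i a b
    have h2 := hg i a b
    rw [h1, h2, add_zero]
  zero_mem' := fun i a b => by simp
  smul_mem' := fun c f hf i a b => by
    have h1 := hf i a b
    simp only [Pi.smul_apply, smul_eq_mul]
    have : ∀ s : Fin 6, wts s * (c * f (a * pts (β i) (γ i) s + b)) =
        c * (wts s * f (a * pts (β i) (γ i) s + b)) := fun s => by ring
    simp only [this, ← Finset.mul_sum]
    rw [h1, mul_zero]

theorem mem_PP {m : ℕ} {β γ : Fin m → K} {f : K → F} : f ∈ PP F β γ ↔
    ∀ (i : Fin m) (a b : K), ∑ s, wts s * f (a * pts (β i) (γ i) s + b) = 0 := Iff.rfl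

theorem PP_affine {m : ℕ} (β γ : Fin m → K) : AffineInvariant (PP F β γ) := by
  intro f hf c d _ i a b
  have h := hf i (c * a) (c * b + d)
  refine Eq.trans (Finset.sum_congr rfl fun s _ => ?_) h
  have : c * (a * pts (β i) (γ i) s + b) + d = c * a * pts (β i) (γ i) s + (c * b + d) := by ring
  show wts s * f (c * (a * pts (β i) (γ i) s + b) + d) = _
  rw [this]

theorem PP_local {m : ℕ} (β γ : Fin m → K) : HasLocalChar 6 (PP F β γ) := by
  refine ⟨{c | ∃ (i : Fin m) (a b : K), c = (fun s => a * pts (β i) (γ i) s + b,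
    {v : Fin 6 → F | ∑ s, wts s * v s = 0})}, ?_, fun f => ?_⟩
  · rintro c ⟨i, a, b, rfl⟩ h
    have h1 : (Pi.single 0 1 : Fin 6 → F) ∈ {v : Fin 6 → F | ∑ s, wts s * v s = 0} := by
      have h2 : {v : Fin 6 → F | ∑ s, wts s * v s = 0} = Set.univ := h
      rw [h2]
      exact Set.mem_univ _
    have h3 : ∑ s, wts s * (Pi.single 0 1 : Fin 6 → F) s = 0 := h1
    rw [Finset.sum_eq_single 0] at h3
    · simp [wts] at h3
    · intro b _ hb
      simp [hb]
    · simp
  · constructor
    · rintro hf c ⟨i, a, b, rfl⟩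
      exact hf i a b
    · intro h i a b
      exact h _ ⟨i, a, b, rfl⟩

variable [Algebra F K]

/-- the function `Tr (a x g x)` -/
noncomputable def qf (a : K) (g : K ≃ₐ[F] K) : K → F :=
  fun x => Algebra.trace F K (a * (x * g x))

theorem wsum_qf (β γ a u b : K) (g : K ≃ₐ[F] K) :
    ∑ s, wts s * qf a g (u * pts β γ s + b) =
      Algebra.trace F K (a * (u * g u * ((g β - β) * (g γ - γ)))) := by
  have h : a * (u * g u * ((g β - β) * (g γ - γ))) =
      a * ((u * (1 + β * γ) + b) * g (u * (1 + β * γ) + b)) -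
      a * ((u * 1 + b) * g (u * 1 + b)) -
      a * ((u * (β * γ) + b) * g (u * (β * γ) + b)) -
      a * ((u * (β + γ) + b) * g (u * (β + γ) + b)) +
      a * ((u * β + b) * g (u * β + b)) +
      a * ((u * γ + b) * g (u * γ + b)) := by
    simp only [map_add, map_mul, map_one]
    ring
  rw [h, map_add, map_add, map_sub, map_sub, map_sub]
  simp [Fin.sum_univ_succ, wts, pts, qf]
  ring

theorem wsum_lin (β γ a u b : K) :
    ∑ s, wts s * Algebra.trace F K (a * (u * pts β γ s + b)) = 0 := by
  have h : (0 : K) =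
      a * (u * (1 + β * γ) + b) - a * (u * 1 + b) - a * (u * (β * γ) + b) -
      a * (u * (β + γ) + b) + a * (u * β + b) + a * (u * γ + b) := by
    ring
  have h2 := congrArg (Algebra.trace F K) h
  rw [map_add, map_add, map_sub, map_sub, map_sub, map_zero] at h2
  refine Eq.trans ?_ h2.symm
  simp [Fin.sum_univ_succ, wts, pts]
  ring

theorem wsum_const (c : F) : ∑ s : Fin 6, wts s * c = 0 := by
  simp [Fin.sum_univ_succ, wts]

variable [Finite K]

theorem exists_trace_ne {s : K} (hs : s ≠ 0) : ∃ a : K, Algebra.trace F K (a * s) ≠ 0 := by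
  have : Finite F := Finite.of_injective _ (algebraMap F K).injective
  have hsurj := Algebra.trace_surjective F K
  obtain ⟨z, hz⟩ := hsurj 1
  refine ⟨z * s⁻¹, ?_⟩
  rw [mul_assoc, inv_mul_cancel₀ hs, mul_one, hz]
  exact one_ne_zero

omit [Finite K] in
theorem qf_mem {m : ℕ} {β γ : Fin m → K} (a : K) (g : K ≃ₐ[F] K)
    (h : ∀ i, g (β i) = β i ∨ g (γ i) = γ i) : qf a g ∈ PP F β γ := by
  intro i u b
  rw [wsum_qf]
  rcases h i with h | h <;> simp [h]

theorem qf_notMem {m : ℕ} {β γ : Fin m → K} (g : K ≃ₐ[F] K) (i : Fin m)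
    (h1 : g (β i) ≠ β i) (h2 : g (γ i) ≠ γ i) : ∃ a, qf a g ∉ PP F β γ := by
  obtain ⟨a, ha⟩ := exists_trace_ne (F := F) (mul_ne_zero (sub_ne_zero.2 h1) (sub_ne_zero.2 h2))
  refine ⟨a, fun h => ha ?_⟩
  have h3 := h i 1 0
  rw [wsum_qf] at h3
  simpa using h3

/-- the separating property of the points of a single orbit characterization -/
theorem exists_weights {m k : ℕ} {β γ : Fin m → K} {α : Fin k → K} {S : Set (Fin k → F)}
    (hS : ∀ f : K → F, f ∈ PP F β γ ↔ ∀ a b : K, a ≠ 0 → (fun i => f (a * α i + b)) ∈ S)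
    (g : K ≃ₐ[F] K) (i : Fin m) (h1 : g (β i) ≠ β i) (h2 : g (γ i) ≠ γ i) :
    ∃ w : Fin k → F, ∑ s, w s • (α s * g (α s)) ≠ 0 ∧
      ∀ h : K ≃ₐ[F] K, (∀ i, h (β i) = β i ∨ h (γ i) = γ i) → ∑ s, w s • (α s * h (α s)) = 0 := by
  obtain ⟨a, ha⟩ := qf_notMem (F := F) g i h1 h2
  rw [hS] at ha
  push Not at ha
  obtain ⟨u, b, -, hub⟩ := ha
  set R : (K → F) →ₗ[F] (Fin k → F) := LinearMap.funLeft F F α with hR
  have hv : (fun i => qf a g (u * α i + b)) ∉ (PP F β γ).map R := by
    rintro ⟨f, hf, hfv⟩
    apply hub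
    rw [← hfv]
    have := (hS f).1 hf 1 0 one_ne_zero
    simp only [one_mul, add_zero] at this
    exact this
  obtain ⟨φ, hφ1, hφ2⟩ := Submodule.exists_dual_map_eq_bot_of_notMem hv inferInstance
  set w : Fin k → F := fun i => φ (Pi.single i 1) with hw
  have hφ : ∀ v, φ v = ∑ i, w i * v i := by
    intro v
    have h1 : v = ∑ i, v i • (Pi.single i 1 : Fin k → F) := by
      ext j
      simp [Finset.sum_apply, Pi.single_apply]
    conv_lhs => rw [h1]
    rw [map_sum]
    exact Finset.sum_congr rfl fun i _ => by rw [map_smul, smul_eq_mul, mul_comm]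
  have hker : ∀ f ∈ PP F β γ, ∑ s, w s * f (α s) = 0 := by
    intro f hf
    have h3 : φ (R f) ∈ ((PP F β γ).map R).map φ :=
      Submodule.mem_map_of_mem (Submodule.mem_map_of_mem hf)
    rw [hφ2] at h3
    have h4 := (Submodule.mem_bot _).1 h3
    rw [hφ] at h4
    exact h4
  have htr : ∀ z : Fin k → K, (∀ a : K, ∑ s, w s * Algebra.trace F K (a * z s) = 0) →
      ∑ s, w s • z s = 0 := by
    intro z hz
    by_contra hne
    obtain ⟨a, ha⟩ := exists_trace_ne (F := F) hne
    apply ha
    rw [Finset.mul_sum, map_sum, ← hz a]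
    refine Finset.sum_congr rfl fun s _ => ?_
    rw [mul_smul_comm, map_smul, smul_eq_mul]
  have hw0 : ∑ s, w s = 0 := by
    have := hker (fun _ => 1) (fun i a b => wsum_const 1)
    simpa using this
  have hw1 : ∑ s, w s • α s = 0 :=
    htr _ fun a => hker (fun x => Algebra.trace F K (a * x)) (fun i u b => wsum_lin _ _ a u b)
  refine ⟨w, fun h0 => hφ1 ?_, fun h hh => ?_⟩
  · rw [hφ]
    have h3 : ∑ s, w s * qf a g (u * α s + b) =
        Algebra.trace F K (a * ∑ s, w s • ((u * α s + b) * g (u * α s + b))) := by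
      rw [Finset.mul_sum, map_sum]
      refine Finset.sum_congr rfl fun s _ => ?_
      rw [mul_smul_comm, map_smul, smul_eq_mul]
      rfl
    have h4 : ∑ s, w s • ((u * α s + b) * g (u * α s + b)) =
        u * g u * (∑ s, w s • (α s * g (α s))) + u * g b * (∑ s, w s • α s) +
          b * g u * g (∑ s, w s • α s) + b * g b * algebraMap F K (∑ s, w s) := by
      simp only [map_sum, Finset.mul_sum, map_smul, ← Finset.sum_add_distrib]
      refine Finset.sum_congr rfl fun s _ => ?_
      simp only [Algebra.smul_def, map_add, map_mul]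
      ring
    rw [h3, h4, h0, hw0, hw1]
    simp
  · exact htr _ fun a => hker _ (qf_mem a h hh)

theorem core_bound {m k : ℕ} {β γ : Fin m → K} (x y : Fin m → (K ≃ₐ[F] K))
    (hxβ : ∀ i, x i (β i) ≠ β i) (hxβ' : ∀ i l, i ≠ l → x i (β l) = β l)
    (hxγ : ∀ i l, x i (γ l) = γ l) (hyγ : ∀ i, y i (γ i) ≠ γ i)
    (hyγ' : ∀ i l, i ≠ l → y i (γ l) = γ l) (hyβ : ∀ i l, y i (β l) = β l)
    (hP : HasOrbitChar k (PP F β γ)) : m ≤ k := by
  obtain ⟨α, S, -, hS⟩ := hP
  have hex : ∀ i : Fin m, ∃ w : Fin k → F, ∑ s, w s • (α s * (x i * y i) (α s)) ≠ 0 ∧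
      ∀ h : K ≃ₐ[F] K, (∀ i, h (β i) = β i ∨ h (γ i) = γ i) →
        ∑ s, w s • (α s * h (α s)) = 0 := by
    intro i
    refine exists_weights hS (x i * y i) i ?_ ?_
    · rw [AlgEquiv.mul_apply, hyβ]
      exact hxβ i
    · rw [AlgEquiv.mul_apply]
      intro h
      apply hyγ i
      apply (x i).injective
      rw [h, hxγ]
  choose w hw1 hw2 using hex
  have hzero : ∀ i l, i ≠ l → ∑ s, w i s • (α s * (x i * y l) (α s)) = 0 := by
    intro i l hil
    apply hw2
    intro r
    by_cases hr : r = i
    · right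
      subst hr
      rw [AlgEquiv.mul_apply, hyγ' l r (Ne.symm hil), hxγ]
    · left
      rw [AlgEquiv.mul_apply, hyβ, hxβ' i r (Ne.symm hr)]
  have hind : LinearIndependent K (fun l : Fin m => fun s : Fin k => y l (α s)) := by
    rw [Fintype.linearIndependent_iff]
    intro c hc i
    have hc' : ∀ s, ∑ l, c l * y l (α s) = 0 := by
      intro s
      have := congrFun hc s
      simpa [Finset.sum_apply] using this
    have h1 : ∑ l, c l * (x i).symm (∑ s, w i s • (α s * (x i * y l) (α s))) = 0 := by
      have h2 : ∀ l, (x i).symm (∑ s, w i s • (α s * (x i * y l) (α s))) =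
          ∑ s, w i s • ((x i).symm (α s) * y l (α s)) := by
        intro l
        rw [map_sum]
        refine Finset.sum_congr rfl fun s _ => ?_
        rw [map_smul, map_mul, AlgEquiv.mul_apply, AlgEquiv.symm_apply_apply]
      simp only [h2, Finset.mul_sum]
      rw [Finset.sum_comm]
      refine Finset.sum_eq_zero fun s _ => ?_
      have h3 : ∑ l, c l * (w i s • ((x i).symm (α s) * y l (α s))) =
          w i s • ((x i).symm (α s) * ∑ l, c l * y l (α s)) := by
        rw [Finset.mul_sum, Finset.smul_sum]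
        refine Finset.sum_congr rfl fun l _ => ?_
        rw [mul_smul_comm]
        congr 1
        ring
      rw [h3, hc' s, mul_zero, smul_zero]
    rw [Finset.sum_eq_single i] at h1
    · rcases mul_eq_zero.1 h1 with h2 | h2
      · exact h2
      · exfalso
        apply hw1 i
        have h3 := congrArg (x i) h2
        rwa [AlgEquiv.apply_symm_apply, map_zero] at h3
    · intro l _ hl
      rw [hzero i l (Ne.symm hl), map_zero, mul_zero]
    · simp
  have := hind.fintype_card_le_finrank
  simpa using this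

end core

section primes

variable {F K : Type} [Field F] [Field K] [Finite K] [Algebra F K]

theorem pow_sub_one_dvd_iff {q p j : ℕ} (hq : 2 ≤ q) : q ^ p - 1 ∣ q ^ j - 1 ↔ p ∣ j := by
  constructor
  · intro h
    have h1 := Nat.gcd_eq_left h
    rw [Nat.pow_sub_one_gcd_pow_sub_one] at h1
    have h2 : 1 ≤ q ^ p := Nat.one_le_pow _ _ (by omega)
    have h3 : 1 ≤ q ^ (p.gcd j) := Nat.one_le_pow _ _ (by omega)
    have h4 : q ^ (p.gcd j) = q ^ p := by omega
    have h5 : p.gcd j = p := Nat.pow_right_injective hq h4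
    exact Nat.gcd_eq_left_iff_dvd.1 h5
  · exact fun h => Nat.pow_sub_one_dvd_pow_sub_one q h

theorem exists_theta (F : Type) {K : Type} [Field F] [Field K] [Finite K] [Algebra F K] :
    ∃ σ : K ≃ₐ[F] K, ∀ p : ℕ, p ∣ Module.finrank F K →
      ∃ θ : K, ∀ j : ℕ, (σ ^ j) θ = θ ↔ p ∣ j := by
  have : Finite F := Finite.of_injective _ (algebraMap F K).injective
  have := Fintype.ofFinite F
  have := Fintype.ofFinite K
  refine ⟨FiniteField.frobeniusAlgEquivOfAlgebraic F K, fun p hp => ?_⟩
  set q := Fintype.card F with hq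
  have hq2 : 2 ≤ q := Fintype.one_lt_card
  have hcard : Nat.card Kˣ = q ^ (Module.finrank F K) - 1 := by
    rw [Nat.card_units, Nat.card_eq_fintype_card, Module.card_eq_pow_finrank (K := F)]
  obtain ⟨ζ, hζ⟩ := IsCyclic.exists_ofOrder_eq_natCard (α := Kˣ)
  have hdvd : q ^ p - 1 ∣ q ^ (Module.finrank F K) - 1 := (pow_sub_one_dvd_iff hq2).2 hp
  obtain ⟨n, hn⟩ := hdvd
  have hpos : 0 < q ^ (Module.finrank F K) - 1 := by
    rw [← hcard]
    exact Nat.card_pos
  have hn0 : n ≠ 0 := by
    rintro rfl
    rw [hn] at hpos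
    simp at hpos
  have hord : orderOf (ζ ^ n) = q ^ p - 1 := by
    rw [orderOf_pow_of_dvd hn0 (by rw [hζ, hcard, hn]; exact dvd_mul_left _ _), hζ, hcard, hn]
    exact Nat.mul_div_cancel _ (Nat.pos_of_ne_zero hn0)
  refine ⟨((ζ ^ n : Kˣ) : K), fun j => ?_⟩
  have h1 : ((FiniteField.frobeniusAlgEquivOfAlgebraic F K) ^ j) ((ζ ^ n : Kˣ) : K) =
      ((ζ ^ n : Kˣ) : K) ^ q ^ j := by
    rw [AlgEquiv.coe_pow, FiniteField.coe_frobeniusAlgEquivOfAlgebraic_iterate]
  rw [h1, ← pow_sub_one_dvd_iff hq2 (p := p) (j := j), ← hord, orderOf_dvd_iff_pow_eq_one]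
  have h2 : q ^ j = (q ^ j - 1) + 1 := by
    have : 1 ≤ q ^ j := Nat.one_le_pow _ _ (by omega)
    omega
  have hne : ((ζ ^ n : Kˣ) : K) ≠ 0 := Units.ne_zero _
  constructor
  · intro h
    rw [h2, pow_succ] at h
    have h3 : ((ζ ^ n : Kˣ) : K) ^ (q ^ j - 1) = 1 := by
      apply mul_right_cancel₀ hne
      rw [h, one_mul]
    apply Units.ext
    rw [Units.val_pow_eq_pow_val, h3, Units.val_one]
  · intro h
    have h3 : ((ζ ^ n : Kˣ) : K) ^ (q ^ j - 1) = 1 := by
      rw [← Units.val_pow_eq_pow_val, h, Units.val_one]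
    rw [h2, pow_succ, h3, one_mul]

theorem main (F : Type) {K : Type} [Field F] [Field K] [Finite K] [Algebra F K] (m : ℕ)
    (hm : 1 ≤ m) (hcard : 2 * m ≤ (Module.finrank F K).primeFactors.card) :
    ∃ P : Submodule F (K → F), P ≠ ⊤ ∧ AffineInvariant P ∧ HasLocalChar 6 P ∧
      ∀ k, HasOrbitChar k P → m ≤ k := by
  set t := Module.finrank F K with ht
  have ht0 : t ≠ 0 := Module.finrank_pos.ne'
  obtain ⟨σ, hσ⟩ := exists_theta F (K := K)
  obtain ⟨e⟩ : Nonempty (Fin m ⊕ Fin m ↪ t.primeFactors) :=
    Function.Embedding.nonempty_of_card_le (by simpa [two_mul] using hcard)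
  have hθ : ∀ r : Fin m ⊕ Fin m, ∃ θ : K, ∀ j : ℕ, (σ ^ j) θ = θ ↔ (e r : ℕ) ∣ j := fun r =>
    hσ _ (Nat.dvd_of_mem_primeFactors (e r).2)
  choose θ hθ using hθ
  set X : Fin m ⊕ Fin m → ℕ := fun r => t / (e r : ℕ) ^ (t.factorization (e r)) with hX
  have hX1 : ∀ r, (σ ^ X r) (θ r) ≠ θ r := by
    intro r
    rw [Ne, hθ]
    exact Nat.not_dvd_ordCompl (Nat.prime_of_mem_primeFactors (e r).2) ht0
  have hX2 : ∀ r r', r ≠ r' → (σ ^ X r) (θ r') = θ r' := by
    intro r r' hr
    rw [hθ]
    have hp := Nat.prime_of_mem_primeFactors (e r).2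
    have hp' := Nat.prime_of_mem_primeFactors (e r').2
    have hne : (e r' : ℕ) ≠ e r := by
      intro h
      exact hr (e.injective (Subtype.ext h.symm))
    have hco : Nat.Coprime (e r' : ℕ) ((e r : ℕ) ^ (t.factorization (e r))) :=
      Nat.Coprime.pow_right _ ((Nat.coprime_primes hp' hp).2 hne)
    have h1 : (e r : ℕ) ^ (t.factorization (e r)) * X r = t := Nat.ordProj_mul_ordCompl_eq_self _ _
    have h2 : (e r' : ℕ) ∣ (e r : ℕ) ^ (t.factorization (e r)) * X r := by
      rw [h1]
      exact Nat.dvd_of_mem_primeFactors (e r').2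
    exact hco.dvd_of_dvd_mul_left h2
  have hb : ∀ k, HasOrbitChar k (PP F (fun i => θ (Sum.inl i)) (fun i => θ (Sum.inr i))) →
      m ≤ k := fun k hk =>
    core_bound (fun i => σ ^ X (Sum.inl i)) (fun i => σ ^ X (Sum.inr i))
      (fun i => hX1 _) (fun i l hil => hX2 _ _ (by simpa using hil)) (fun i l => hX2 _ _ (by simp))
      (fun i => hX1 _) (fun i l hil => hX2 _ _ (by simpa using hil)) (fun i l => hX2 _ _ (by simp))
      hk
  refine ⟨PP F (fun i => θ (Sum.inl i)) (fun i => θ (Sum.inr i)), ?_, PP_affine _ _,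
    PP_local _ _, hb⟩
  intro htop
  let i : Fin m := ⟨0, hm⟩
  have h1 : (σ ^ X (Sum.inl i) * σ ^ X (Sum.inr i)) (θ (Sum.inl i)) ≠ θ (Sum.inl i) := by
    rw [AlgEquiv.mul_apply, hX2 _ _ (by simp)]
    exact hX1 _
  have h2 : (σ ^ X (Sum.inl i) * σ ^ X (Sum.inr i)) (θ (Sum.inr i)) ≠ θ (Sum.inr i) := by
    rw [AlgEquiv.mul_apply]
    intro h
    apply hX1 (Sum.inr i)
    apply (σ ^ X (Sum.inl i)).injective
    rw [h, hX2 _ _ (by simp)]
  obtain ⟨a, ha⟩ := qf_notMem (F := F) (β := fun i => θ (Sum.inl i))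
    (γ := fun i => θ (Sum.inr i)) _ i h1 h2
  apply ha
  rw [htop]
  exact Submodule.mem_top

end primes

/-- Let `F` be a finite field. (1) If `K` is a finite extension of `F` whose degree has at least
`2 m` prime factors, `m ≥ 1`, then there is an affine-invariant property of functions `K → F`,
different from the set of all functions, which has a `6`-local characterization such that all its
single orbit characterizations have locality at least `m`. (2) Therefore the locality of the single
orbit characterizations is unbounded, for the locality `6` and for every fixed field `F`: for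
every `B` there are `K` and an affine-invariant property with a `6`-local characterization all of
whose single orbit characterizations have locality larger than `B`. -/
theorem result (F : Type) [Field F] [Finite F] :
    (∀ (K : Type) [Field K] [Finite K] [Algebra F K] (m : ℕ), 1 ≤ m →
      2 * m ≤ (Module.finrank F K).primeFactors.card →
      ∃ P : Submodule F (K → F), P ≠ ⊤ ∧ AffineInvariant P ∧ HasLocalChar 6 P ∧
        ∀ k, HasOrbitChar k P → m ≤ k) ∧
    ∀ B : ℕ, ∃ (K : Type) (_ : Field K) (_ : Finite K) (_ : Algebra F K)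
      (P : Submodule F (K → F)), P ≠ ⊤ ∧ AffineInvariant P ∧ HasLocalChar 6 P ∧
        ∀ k, HasOrbitChar k P → B < k := by
  refine ⟨fun K _ _ _ m hm h => main F m hm h, fun B => ?_⟩
  obtain ⟨p, hp⟩ := CharP.exists F
  have hpp : Fact p.Prime := ⟨(CharP.char_is_prime_or_zero F p).resolve_right
    (CharP.char_ne_zero_of_finite F p)⟩
  obtain ⟨s, hs, hcard⟩ := Nat.infinite_setOfPred_prime.exists_subset_card_eq (2 * (B + 1))
  have hs' : ∀ r ∈ s, r.Prime := fun r hr => hs hr
  have hne : NeZero (∏ r ∈ s, r) := ⟨Finset.prod_ne_zero_iff.2 fun r hr => (hs' r hr).ne_zero⟩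
  obtain ⟨P, h1, h2, h3, h4⟩ := main F (K := FiniteField.Extension F p (∏ r ∈ s, r)) (B + 1)
    (by omega) (by rw [FiniteField.finrank_extension, Nat.primeFactors_prod hs', hcard])
  exact ⟨FiniteField.Extension F p (∏ r ∈ s, r), inferInstance, inferInstance, inferInstance, P,
    h1, h2, h3, fun k hk => h4 k hk⟩

end Pool.Agent.Results.MP_cb1103_lc.SingleOrbitUnbounded
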